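import Mathlib
import Pool.Agent.K6.H74.EC.Alg
import Pool.Agent.K6.H74.EC.Struct

set_option autoImplicit false
set_option linter.unusedSectionVars false

namespace Pool.Agent.Results.MP_2a9600_co.ThreeRoots

open Finset Polynomial
open Pool.Agent.Results.MP_a87573_co.DistinctRoots
open Pool.Agent.K6.H74.EC

variable {V : Type} [Fintype V] [DecidableEq V] {G : SimpleGraph V} [DecidableRel G.Adj]

lemma coverCount_large {k : ℕ} (hk : #G.edgeFinset < k) : coverCount G k = 0 := by
  rw [coverCount, card_eq_zero, filter_eq_empty_iff]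
  rintro S hS ⟨h1, -⟩
  have := card_le_card (mem_powerset.1 hS)
  omega

lemma natDegree_E (hdeg : ∀ v, 2 ≤ G.degree v) :
    (edgeCoverPoly G).natDegree = #G.edgeFinset := by
  refine natDegree_eq_of_le_of_coeff_ne_zero ?_ ?_
  · rw [natDegree_le_iff_coeff_eq_zero]
    intro k hk
    rw [coeff_E, coverCount_large hk, Nat.cast_zero]
  · rw [coeff_E, coverCount_zero' hdeg, Nat.cast_one]
    exact one_ne_zero

lemma monic_E (hdeg : ∀ v, 2 ≤ G.degree v) : (edgeCoverPoly G).Monic := by
  rw [Monic, leadingCoeff, natDegree_E hdeg, coeff_E, coverCount_zero' hdeg, Nat.cast_one]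

lemma factor (hdeg : ∀ v, 2 ≤ G.degree v) (c : ℂ) (hc : c ≠ 0)
    (h : {z : ℂ | (edgeCoverPoly G).eval z = 0} = {0, c}) :
    ∃ r s : ℕ, r + s = #G.edgeFinset ∧ 0 < s ∧
      edgeCoverPoly G = X ^ r * (X + C (-c)) ^ s := by
  have hmon := monic_E hdeg
  have hsplit := IsAlgClosed.splits (edgeCoverPoly G)
  have hroots : (edgeCoverPoly G).roots.toFinset = {0, c} := by
    ext z
    rw [Multiset.mem_toFinset, mem_roots hmon.ne_zero, IsRoot, mem_insert, mem_singleton]
    have := Set.ext_iff.1 h z
    simpa using this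
  have hprod := hsplit.eq_prod_roots_of_monic hmon
  rw [Finset.prod_multiset_map_count, hroots, prod_pair hc.symm] at hprod
  refine ⟨(edgeCoverPoly G).roots.count 0, (edgeCoverPoly G).roots.count c, ?_, ?_, ?_⟩
  · have h1 := splits_iff_card_roots.1 hsplit
    rw [natDegree_E hdeg, ← Multiset.toFinset_sum_count_eq, hroots, sum_pair hc.symm] at h1
    exact h1
  · rw [Multiset.count_pos, ← Multiset.mem_toFinset, hroots]
    simp
  · rw [C_neg, ← sub_eq_add_neg]
    simpa using hprod

/-- The relations forced by the top coefficients. -/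
lemma numeric (hdeg : ∀ v, 2 ≤ G.degree v) (hm : 2 ≤ #G.edgeFinset) (a : ℂ) (r s : ℕ)
    (hrs : r + s = #G.edgeFinset) (hs : 0 < s)
    (hE : edgeCoverPoly G = X ^ r * (X + C a) ^ s) :
    ∃ b : ℕ, a = b ∧ #G.edgeFinset = s * b ∧
      s * b * b = s * b + 2 * #{v | G.degree v = 2} := by
  have hsC : (s : ℂ) ≠ 0 := Nat.cast_ne_zero.2 hs.ne'
  set m := #G.edgeFinset with hmdef
  set N := #{v | G.degree v = 2} with hN
  have h1 : a * s = m := by
    have h := coeff_E G (m - 1)
    rw [coverCount_one hdeg (by omega), hE, show #G.edgeFinset - 1 = (s - 1) + r by omega,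
      coeff_X_pow_mul, coeff_X_add_C_pow, show s - (s - 1) = 1 by omega, pow_one] at h
    rw [← h]
    congr 2
    rw [Nat.choose_symm (by omega : 1 ≤ s), Nat.choose_one_right]
  have h2 : a ^ s = coverCount G r := by
    have h := coeff_E G r
    rw [hE] at h
    nth_rewrite 2 [← zero_add r] at h
    rw [coeff_X_pow_mul, coeff_X_add_C_pow, Nat.sub_zero, Nat.choose_zero_right, Nat.cast_one,
      mul_one] at h
    exact h
  have h3 : a ^ 2 * ((s : ℂ) * (s - 1) / 2) + N = m * (m - 1) / 2 := by
    have h4 : ((coverCount G (m - 2) : ℕ) : ℂ) = a ^ 2 * ((s : ℂ) * (s - 1) / 2) := by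
      rw [← coeff_E, hE]
      rcases (by omega : s = 1 ∨ 2 ≤ s) with hs1 | hs2
      · rw [coeff_X_pow_mul', if_neg (by omega), hs1]
        simp
      · rw [show m - 2 = (s - 2) + r by omega, coeff_X_pow_mul, coeff_X_add_C_pow,
          show s - (s - 2) = 2 by omega, Nat.choose_symm hs2, Nat.cast_choose_two]
    have h5 := coverCount_two hdeg hm
    rw [← h4, ← Nat.cast_choose_two, ← h5]
    push_cast
    rfl
  have h4 : m * m = s * m + 2 * s * N := by
    have : (m : ℂ) * m = s * m + 2 * s * N := by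
      rw [← h1]
      rw [← h1] at h3
      linear_combination (-2 * (s : ℂ)) * h3
    exact_mod_cast this
  have h5 : s ∣ m := by
    have h6 : m ^ s = coverCount G r * s ^ s := by
      have : (m : ℂ) ^ s = coverCount G r * (s : ℂ) ^ s := by
        rw [← h1, mul_pow, h2]
      exact_mod_cast this
    exact (Nat.pow_dvd_pow_iff hs.ne').1 ⟨coverCount G r, by rw [h6, mul_comm]⟩
  obtain ⟨b, hb⟩ := h5
  refine ⟨b, ?_, hb, ?_⟩
  · apply mul_right_cancel₀ hsC
    rw [h1, hb]; push_cast; ring
  · rw [hb] at h4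
    apply Nat.eq_of_mul_eq_mul_left hs
    nlinarith

lemma sum_degree_split :
    2 * #{v | G.degree v = 2} + ∑ v with ¬ G.degree v = 2, G.degree v = 2 * #G.edgeFinset := by
  rw [← G.sum_degrees_eq_twice_card_edges,
    ← sum_filter_add_sum_filter_not univ (fun v => G.degree v = 2)]
  congr 1
  rw [sum_congr rfl (fun v hv => (mem_filter.1 hv).2), sum_const, smul_eq_mul, mul_comm]

/-- `E(G, x)` is not of the form `x ^ s (x + 2) ^ s`. -/
lemma case_two (hconn : G.Preconnected) (hdeg : ∀ v, 2 ≤ G.degree v) (s : ℕ) (hs : 0 < s)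
    (hm : #G.edgeFinset = 2 * s) (hN : #{v | G.degree v = 2} = s)
    (hE : edgeCoverPoly G = X ^ s * (X + C 2) ^ s)
    (hcov : ∀ S ⊆ G.edgeFinset, IsEdgeCovering S → s ≤ #S) : False := by
  have h1 := sum_degree_split (G := G)
  rw [hN, hm] at h1
  have hc : #{v | G.degree v = 2} + #{v | ¬ G.degree v = 2} = Fintype.card V :=
    card_filter_add_card_filter_not _
  rw [hN] at hc
  set B : Finset V := {v | ¬ G.degree v = 2} with hB
  have h2 : 3 * #B ≤ ∑ v ∈ B, G.degree v := by
    have := card_nsmul_le_sum B (fun v => G.degree v) 3 fun v hv => by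
      have h3 := (mem_filter.1 hv).2
      have h4 := hdeg v
      omega
    rw [smul_eq_mul] at this
    omega
  have h3 : ∑ v ∈ B, G.degree v ≤ #B * (Fintype.card V - 1) := by
    refine (sum_le_card_nsmul B _ (Fintype.card V - 1) fun v _ => ?_).trans
      (by rw [smul_eq_mul])
    have := G.degree_lt_card_verts v
    omega
  by_cases hsmall : Fintype.card V + 2 ≤ 2 * s
  · obtain ⟨Y, F, hb, hYF⟩ := exists_barrier G (fun v => lt_of_lt_of_le (by norm_num) (hdeg v)) s
      hcov hsmall
    rcases Y.eq_empty_or_nonempty with rfl | hY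
    · have := card_F_le_one hconn hb
      rw [card_empty] at hYF
      omega
    · obtain ⟨-, h4⟩ := main_ineq hconn hY hdeg hb s hYF
      obtain ⟨h5, h6, h7⟩ := h4 hm
      have h8 := count_lt hconn hY hdeg hb h5 h6 h7
      have h9 := eval_one_E G
      rw [hE, eval_mul, eval_pow, eval_pow, eval_add, eval_X, eval_C, one_pow, one_mul] at h9
      rw [hN] at h8
      have h10 : 3 ^ s = #{S ∈ G.edgeFinset.powerset | IsEdgeCovering S} := by
        have : (3 : ℂ) ^ s = #{S ∈ G.edgeFinset.powerset | IsEdgeCovering S} := by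
          rw [← h9]; norm_num
        exact_mod_cast this
      omega
  · have h4 : #B = 2 ∧ s = 3 := by
      rcases (by omega : #B = 0 ∨ #B = 1 ∨ #B = 2 ∨ 3 ≤ #B) with h | h | h | h
      · rw [h, zero_mul] at h3; omega
      · rw [h] at h3; omega
      · omega
      · omega
    have h5 := eval_neg_one hdeg (by omega) (by omega)
    apply h5
    rw [hE, eval_mul, eval_pow, eval_pow, eval_add, eval_X, eval_C, h4.2]
    norm_num

/-- If `E(G, x) = x ^ (2 s) (x + 3) ^ s` then `G` is a triangle. -/
lemma case_three (hconn : G.Preconnected) (hdeg : ∀ v, 2 ≤ G.degree v) (s : ℕ) (hs : 0 < s)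
    (hm : #G.edgeFinset = 3 * s) (hN : #{v | G.degree v = 2} = 3 * s)
    (hcov : ∀ S ⊆ G.edgeFinset, IsEdgeCovering S → 2 * s ≤ #S) :
    Nonempty (G ≃g (⊤ : SimpleGraph (Fin 3))) := by
  have h1 := sum_degree_split (G := G)
  rw [hN, hm] at h1
  have hc : #{v | G.degree v = 2} + #{v | ¬ G.degree v = 2} = Fintype.card V :=
    card_filter_add_card_filter_not _
  rw [hN] at hc
  set B : Finset V := {v | ¬ G.degree v = 2} with hB
  have h2 : 3 * #B ≤ ∑ v ∈ B, G.degree v := by
    have := card_nsmul_le_sum B (fun v => G.degree v) 3 fun v hv => by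
      have h3 := (mem_filter.1 hv).2
      have h4 := hdeg v
      omega
    rw [smul_eq_mul] at this
    omega
  have hn : Fintype.card V = 3 * s := by omega
  by_cases hsmall : Fintype.card V + 2 ≤ 2 * (2 * s)
  · exfalso
    obtain ⟨Y, F, hb, hYF⟩ := exists_barrier G (fun v => lt_of_lt_of_le (by norm_num) (hdeg v))
      (2 * s) hcov hsmall
    rcases Y.eq_empty_or_nonempty with rfl | hY
    · have := card_F_le_one hconn hb
      rw [card_empty] at hYF
      omega
    · have := (main_ineq hconn hY hdeg hb (2 * s) hYF).1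
      omega
  · have hs1 : s = 1 := by omega
    rw [hs1] at hn
    have hall : ∀ v, G.degree v = 2 := by
      intro v
      have h3 : #B = 0 := by omega
      by_contra h4
      have : v ∈ B := mem_filter.2 ⟨mem_univ _, h4⟩
      rw [card_eq_zero.1 h3] at this
      exact notMem_empty _ this
    have hadj : ∀ v w, v ≠ w → G.Adj v w := by
      intro v w hvw
      have h3 : G.neighborFinset v = univ.erase v := by
        refine eq_of_subset_of_card_le ?_ ?_
        · intro u hu
          rw [SimpleGraph.mem_neighborFinset] at hu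
          exact mem_erase.2 ⟨hu.ne', mem_univ _⟩
        · rw [card_erase_of_mem (mem_univ _), card_univ, hn,
            SimpleGraph.card_neighborFinset_eq_degree, hall]
      rw [← SimpleGraph.mem_neighborFinset, h3]
      exact mem_erase.2 ⟨hvw.symm, mem_univ _⟩
    refine ⟨⟨Fintype.equivFinOfCardEq (by omega), ?_⟩⟩
    intro v w
    rw [SimpleGraph.top_adj, Ne, EmbeddingLike.apply_eq_iff_eq]
    exact ⟨fun h => hadj v w h, fun h => h.ne⟩

/-- **Every connected graph of minimum degree two other than the triangle has an edge cover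
polynomial with at least three distinct complex roots.** -/
theorem result : ∀ (V : Type) [Fintype V] [DecidableEq V] (G : SimpleGraph V) [DecidableRel G.Adj],
    G.Connected → G.minDegree = 2 → ¬ Nonempty (G ≃g (⊤ : SimpleGraph (Fin 3))) →
    (3 : ℕ∞) ≤ Set.encard {z : ℂ | (edgeCoverPoly G).eval z = 0} := by
  intro V _ _ G _ hconn hmin hK
  have hdeg : ∀ v, 2 ≤ G.degree v := fun v => hmin ▸ G.minDegree_le_degree v
  have hpre := hconn.preconnected
  obtain ⟨v0⟩ := hconn.nonempty
  obtain ⟨v1, hv1⟩ : ∃ v, G.minDegree = G.degree v := by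
    have : Nonempty V := ⟨v0⟩
    exact G.exists_minimal_degree_vertex
  have hN1 : 1 ≤ #{v | G.degree v = 2} :=
    card_pos.2 ⟨v1, mem_filter.2 ⟨mem_univ _, by rw [← hv1, hmin]⟩⟩
  have hm2 : 2 ≤ #G.edgeFinset := by
    refine (hdeg v0).trans ?_
    rw [← SimpleGraph.card_incidenceFinset_eq_degree]
    exact card_le_card (incidence_subset_edges v0)
  have hge := Pool.Agent.Results.MP_a87573_co.DistinctRoots.result V G
  rw [hmin] at hge
  by_contra hlt
  rw [not_le] at hlt
  have htwo : Set.encard {z : ℂ | (edgeCoverPoly G).eval z = 0} = 2 :=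
    le_antisymm (Order.le_of_lt_add_one (by norm_num; exact hlt)) hge
  obtain ⟨x, y, hxy, hset⟩ := Set.encard_eq_two.1 htwo
  have h0 : (0 : ℂ) ∈ {z : ℂ | (edgeCoverPoly G).eval z = 0} := by
    rw [Set.mem_ofPred_eq, ← coeff_zero_eq_eval_zero, coeff_E, Nat.cast_eq_zero, coverCount,
      card_eq_zero, filter_eq_empty_iff]
    rintro S _ ⟨h1, h2⟩
    obtain ⟨e, he, -⟩ := h2 v0
    rw [card_eq_zero.1 h1] at he
    exact notMem_empty _ he
  obtain ⟨c, hc, hset'⟩ : ∃ c : ℂ, c ≠ 0 ∧ {z : ℂ | (edgeCoverPoly G).eval z = 0} = {0, c} := by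
    rw [hset] at h0
    rcases h0 with h0 | h0
    · exact ⟨y, fun h => hxy (by rw [← h0, h]), by rw [hset, ← h0]⟩
    · rw [Set.mem_singleton_iff] at h0
      exact ⟨x, fun h => hxy (by rw [← h0, h]), by rw [hset, ← h0, Set.pair_comm]⟩
  obtain ⟨r, s, hrs, hs, hE⟩ := factor hdeg c hc hset'
  obtain ⟨b, hb, hmb, hN⟩ := numeric hdeg hm2 (-c) r s hrs hs hE
  have hcov : ∀ S ⊆ G.edgeFinset, IsEdgeCovering S → r ≤ #S := by
    intro S hS hcS
    by_contra hlt
    have h1 := coeff_E G #S
    rw [hE, coeff_X_pow_mul', if_neg hlt] at h1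
    have h2 : coverCount G #S = 0 := by exact_mod_cast h1.symm
    rw [coverCount, card_eq_zero, filter_eq_empty_iff] at h2
    exact h2 (mem_powerset.2 hS) ⟨rfl, hcS⟩
  have hNn : #{v | G.degree v = 2} ≤ Fintype.card V := card_le_univ _
  have hnm : 2 * Fintype.card V ≤ 2 * #G.edgeFinset := by
    rw [← G.sum_degrees_eq_twice_card_edges]
    have := card_nsmul_le_sum univ (fun v => G.degree v) 2 fun v _ => hdeg v
    rw [smul_eq_mul, card_univ] at this
    omega
  have hb2 : 2 ≤ b := by
    by_contra hlt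
    rcases (by omega : b = 0 ∨ b = 1) with rfl | rfl
    · omega
    · omega
  have hb3 : b ≤ 3 := by
    by_contra hlt
    have h1 : s * b * 4 ≤ s * b * b := Nat.mul_le_mul_left _ (by omega)
    omega
  rcases (by omega : b = 2 ∨ b = 3) with rfl | rfl
  · have hr : r = s := by omega
    subst hr
    refine case_two hpre hdeg r hs (by omega) (by omega) ?_ hcov
    rw [hE, hb]; norm_num
  · have hr : r = 2 * s := by omega
    subst hr
    exact hK (case_three hpre hdeg s hs (by omega) (by omega) hcov)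

end Pool.Agent.Results.MP_2a9600_co.ThreeRoots
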